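import Pool.Agent.P.MP_654fb7_co.Lower

namespace Pool.Agent.Results.MP_654fb7_co.FDExact

open Filter Topology Pool.Agent.P.MP_654fb7_co

/-- The exact value of `FD_t(k)` for all `t ≥ 2` and `k ≥ 1`: it is given by the recursion
`FD_2(k) = (k+1)^(k+1) / k^k`, `FD_{t+1}(k) = FD_2(k) * (1 - 1 / FD_t(k))^k`. -/
theorem result (k t : ℕ) (hk : 1 ≤ k) (ht : 2 ≤ t) :
    Tendsto (fun n : ℕ => fdim t (Q n k)) atTop (𝓝 (fdValue k (t - 2))) := by
  obtain ⟨j, rfl⟩ : ∃ j, t = j + 2 := ⟨t - 2, by omega⟩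
  exact tendsto_fdim hk j

end Pool.Agent.Results.MP_654fb7_co.FDExact
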