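import Pool.Agent.P.MP_654fb7_co.LFinal

namespace Pool.Agent.Results.MP_654fb7_co.FLDSandwich

open Filter Topology Pool.Agent.P.MP_654fb7_co

/-- For all `t, k ≥ 2` the limit `FLD_t(k)` exists and lies between `L_t(k)` and
`L_t(k) + 1 + 2 t / (t - 1)`. -/
theorem result (t k : ℕ) (ht : 2 ≤ t) (hk : 2 ≤ k) : ∃ F : ℝ,
    Tendsto (fun n : ℕ => fldim t (Q n k)) atTop (𝓝 F) ∧
      ellValue t k ≤ F ∧ F ≤ ellValue t k + 1 + 2 * (t : ℝ) / ((t : ℝ) - 1) := by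
  obtain ⟨s, rfl⟩ : ∃ s, t = s + 1 := ⟨t - 1, by omega⟩
  have hs : 1 ≤ s := by omega
  refine ⟨FF s k, tendsto_FF hk hs, ell_le_FF hk hs, ?_⟩
  rw [← gam_eq]
  exact FF_le_basic hk hs

end Pool.Agent.Results.MP_654fb7_co.FLDSandwich
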