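import Pool.Agent.P.MP_654fb7_co.LFinal

namespace Pool.Agent.Results.MP_654fb7_co.FLDSharp

open Filter Topology Pool.Agent.P.MP_654fb7_co

/-- For every `t ≥ 2` the limits `FLD_t(k)` exist and
`FLD_t(k) - L_t(k) → (2 t / (t - 1)) (1 - κ_(t-2))` as `k → ∞`. -/
theorem result (t : ℕ) (ht : 2 ≤ t) : ∃ F : ℕ → ℝ,
    (∀ k, 2 ≤ k → Tendsto (fun n : ℕ => fldim t (Q n k)) atTop (𝓝 (F k))) ∧
      Tendsto (fun k : ℕ => F k - ellValue t k) atTop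
        (𝓝 (2 * (t : ℝ) / ((t : ℝ) - 1) * (1 - kappaSeq (t - 2)))) := by
  obtain ⟨s, rfl⟩ : ∃ s, t = s + 1 := ⟨t - 1, by omega⟩
  have hs : 1 ≤ s := by omega
  refine ⟨FF s, fun k hk => tendsto_FF hk hs, ?_⟩
  rw [← gam_eq]
  exact sharp_limit hs

end Pool.Agent.Results.MP_654fb7_co.FLDSharp
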